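import Mathlib
import Pool.Agent.V5helper2.FC.Log

set_option autoImplicit false

/-!
# Trajectories of the map 3x+d with few parity changes in the sorted list of their terms

Write the different numbers among the first `H` terms of the trajectory of `x` under `T_d` in increasing order and
let `A` be the number of the places where two neighbours have different parity. Dyadic intervals
`±[|d| 2 ^ (v-1), |d| 2 ^ v)` which are not close to a change contain terms of one parity only, so that the
trajectory passes through them at most once. Hence the time is divided into at most `O(A)` intervals in which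
the parity is constant or the terms stay within a bounded ratio. In an interval of the second kind two
neighbours of the sorted list have the same first `N` parities unless some iterate `i < N` separates them at a
change, and for given `i` and change the pair is known up to `O(i)` possibilities, and up to two if the neighbours
are far apart; pairs at distance `O(N)` are separated for some `i = O(log N)`. So the parity word of the trajectory
has at most `C N` different blocks of `N` letters for all `N`, with `C` depending on `d` and `A` only, and by the
starting theorem on trajectories of linear complexity (a consequence of the subspace theorem) it enters in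
logarithmic time one of finitely many cycles.
-/

namespace Pool.Agent.Results.MP_d0d59f_nt.FewParityChanges

open Finset

/-- The map `T_d` on the integers. -/
def T (d x : ℤ) : ℤ := if x % 2 = 0 then x / 2 else (3 * x + d) / 2

/-- The set of the first `H` terms of the trajectory of `x`. -/
def first (d x : ℤ) (H : ℕ) : Finset ℤ := (range H).image fun j => (T d)^[j] x

/-- The number of the parity changes: the number of the pairs of elements of `S` which are neighbours in the
increasing order of `S` and have different parity. -/
def changes (S : Finset ℤ) : ℕ :=
  ((S ×ˢ S).filter fun p =>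
    p.1 < p.2 ∧ (∀ z ∈ S, ¬ (p.1 < z ∧ z < p.2)) ∧ p.1 % 2 ≠ p.2 % 2).card

theorem changes_eq (S : Finset ℤ) : changes S = (Pool.Agent.V5helper2.PC.chg S).card := by
  unfold changes Pool.Agent.V5helper2.PC.chg
  congr 1

/-- Let `d` be odd and `A` a natural number. (1) There is `K` such that for every integer `x` with `|x| ≥ 2` for
which the set of the first `K log |x|` terms of the trajectory under `T_d` has at most `A` parity changes, some term
number `i ≤ K log |x|` lies in a cycle with at most `K` elements, all of absolute value at most `K`.
(2) There is a finite set `F` such that the trajectory of every `x` for which the sets of the first `H` terms have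
at most `A` parity changes for all `H` contains an element of `F`.
(3) If the trajectory of `x` has infinitely many different terms, then the set of its first `H` terms has more than
`A` parity changes for all large `H`. -/
theorem result (d : ℤ) (hd : d % 2 = 1) (A : ℕ) :
    (∃ K : ℕ, ∀ x : ℤ, 2 ≤ |x| → changes (first d x ⌊(K : ℝ) * Real.log |(x : ℝ)|⌋₊) ≤ A →
      ∃ i : ℕ, (i : ℝ) ≤ K * Real.log |(x : ℝ)| ∧
        (∃ k, 1 ≤ k ∧ k ≤ K ∧ (T d)^[k] ((T d)^[i] x) = (T d)^[i] x) ∧
        ∀ j, |(T d)^[j] ((T d)^[i] x)| ≤ K) ∧
    (∃ F : Finset ℤ, ∀ x : ℤ, (∀ H, changes (first d x H) ≤ A) → ∃ i : ℕ, (T d)^[i] x ∈ F) ∧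
    (∀ x : ℤ, (Set.range fun j : ℕ => (T d)^[j] x).Infinite →
      ∃ H0, ∀ H, H0 ≤ H → A < changes (first d x H)) := by
  have hT : T d = Pool.Agent.H944.BX.T 3 d := rfl
  refine ⟨?_, ?_, ?_⟩
  · obtain ⟨K, hK, h⟩ := Pool.Agent.V5helper2.FC.few_log hd A
    refine ⟨K, fun x hx hA => ?_⟩
    rw [changes_eq] at hA
    exact h K le_rfl x hx hA
  · obtain ⟨K, h⟩ := Pool.Agent.V5helper2.FC.few_all hd A
    refine ⟨Finset.Icc (-(K : ℤ)) K, fun x hA => ?_⟩
    obtain ⟨i, -, hi⟩ := h x (fun H => by rw [← changes_eq]; exact hA H)
    exact ⟨i, Finset.mem_Icc.2 (abs_le.1 hi)⟩
  · intro x hx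
    obtain ⟨H0, h⟩ := Pool.Agent.V5helper2.FC.infinite_changes hd x hx A
    exact ⟨H0, fun H hH => by rw [changes_eq]; exact h H hH⟩

end Pool.Agent.Results.MP_d0d59f_nt.FewParityChanges
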