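import Mathlib
import Pool.Agent.V5helper2.BC.Unif

set_option autoImplicit false

/-!
# Repetitions and balanced products in the parity words of the cycles of the `3x+d` maps, uniformly in `d`

Let `x` be an integer with `T_d^n x = x`, and let `K` be the number of odd terms among `x, ..., T_d^(n-1) x`. If the
parity words of length `m` of `x` and of `y = T_d^j x ≠ x` are equal, with `k` ones, then `2 ^ n - 3 ^ K` divides
`d` times the difference of the constants of the affine maps of the two remaining words of length `n - m`; if the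
parity word over the least period is a balanced (Christoffel) product of two words `u`, `v`, it divides `d` times
the constant of the commutator of `u` and `v` (starting files `H944.BX`). With explicit lower bounds for
`|2 ^ n - 3 ^ K|` (starting file `W42.Form`) this bounds the length of the repetitions, and the length and the
size of the cycles which are balanced products of two words that occur at least twice, in terms of `log |d|`
only, with numerical constants, for all `d` at once.
-/

namespace Pool.Agent.Results.MP_d0d59f_nt.RepeatedFactors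

/-- The map `T_d`. -/
def T (d : ℤ) (x : ℤ) : ℤ := if x % 2 = 0 then x / 2 else (3 * x + d) / 2

/-- The parity word of length `n` of `x`: its letter number `i` is `true` if `T_d^i x` is odd. -/
def word (d : ℤ) (x : ℤ) (n : ℕ) : List Bool := (List.range n).map fun i => decide ((T d)^[i] x % 2 = 1)

/-- The balanced product of the words `u` and `v` with slope `p / (p + q)`: the concatenation of `p + q`
words, the word number `i` (`i < p + q`) being `v` if the integer part of `(i p + s) / (p + q)` increases
from `i` to `i + 1`, and `u` otherwise. -/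
def balanced (p q s : ℕ) (u v : List Bool) : List Bool :=
  (List.range (p + q)).flatMap fun i =>
    if (i * p + s) / (p + q) < ((i + 1) * p + s) / (p + q) then v else u

open Pool.Agent.V5helper2.BC

theorem ratio_ge : (0.6309 : ℝ) ≤ Real.log 2 / Real.log 3 := by
  have l3 : 0 < Real.log 3 := Real.log_pos (by norm_num)
  rw [le_div_iff₀ l3]
  have h4 := Pool.Agent.W42.Form.log_ratio (a := 233) (b := 147) (ε := 0) (by norm_num)
  push_cast at h4
  linarith

/-- the size of the elements of a cycle of `T_d` -/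
theorem size_le {d : ℤ} (hd : d % 2 = 1) {x : ℤ} {n : ℕ} (hn : 1 ≤ n) (hx : (T d)^[n] x = x) :
    |(x : ℝ)| ≤ |(d : ℝ)| * 2 ^ ((1 - Real.log 2 / Real.log 3 + 1 / 40) * (n : ℝ) + 17) := by
  have hx' : (Pool.Agent.H944.BX.T 3 d)^[n] x = x := hx
  have hs := Pool.Agent.H944.BX.step (a := 3) (by norm_num) hd (Pool.Agent.H944.BX.word 3 d x n) x
    (by rw [Pool.Agent.H944.BX.word_length])
  rw [Pool.Agent.H944.BX.word_length, hx'] at hs
  set K := (Pool.Agent.H944.BX.word 3 d x n).count true
  obtain ⟨hb0, hb1⟩ := log2_nonneg hd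
  have e : ((2 : ℝ) ^ n - 3 ^ K) * x = d * Pool.Agent.H944.BX.cst 3 (Pool.Agent.H944.BX.word 3 d x n) := by
    have := congrArg (fun z : ℤ => (z : ℝ)) hs
    push_cast at this
    linarith
  have h4 := cst_rpow (Pool.Agent.H944.BX.word 3 d x n)
  rw [Pool.Agent.H944.BX.word_length] at h4
  have hc0 : (0 : ℝ) ≤ Pool.Agent.H944.BX.cst 3 (Pool.Agent.H944.BX.word 3 d x n) := by
    exact_mod_cast Pool.Agent.H944.BX.cst_nonneg (by norm_num) _
  rcases eq_or_ne x 0 with h0 | h0
  · rw [h0]
    simp only [Int.cast_zero, abs_zero]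
    positivity
  have hx1 : (0 : ℝ) < |(x : ℝ)| := by
    have : (x : ℝ) ≠ 0 := by exact_mod_cast h0
    positivity
  have h5 : |(2 : ℝ) ^ n - 3 ^ K| ≤ (|(d : ℝ)| / |(x : ℝ)|) * 2 ^ ((n : ℝ) + (Real.logb 2 3 - 1) * K) := by
    rw [div_mul_eq_mul_div, le_div_iff₀ hx1, ← abs_mul, e, abs_mul, abs_of_nonneg hc0]
    exact mul_le_mul_of_nonneg_left h4 (abs_nonneg _)
  obtain ⟨g1, g2⟩ := log_lower n K hn (by positivity) h5
  rw [Real.logb_div hb1.ne' hx1.ne'] at g1 g2
  have h6 := combine (n := n) (K := K) (m := 0) (k := 0)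
    (A := Real.logb 2 |(d : ℝ)| - Real.logb 2 |(x : ℝ)| + n / 40 + 17) (by linarith) (by linarith)
  have h7 : Real.logb 2 |(x : ℝ)| ≤
      Real.logb 2 |(d : ℝ)| + ((1 - Real.log 2 / Real.log 3 + 1 / 40) * (n : ℝ) + 17) := by linarith
  have h8 : |(x : ℝ)| ≤ 2 ^ (Real.logb 2 |(d : ℝ)| + ((1 - Real.log 2 / Real.log 3 + 1 / 40) * (n : ℝ) + 17)) :=
    (Real.logb_le_iff_le_rpow (by norm_num) hx1).1 h7
  rwa [Real.rpow_add (by norm_num), Real.rpow_logb (by norm_num) (by norm_num) hb1] at h8

/-- Let `d` be any odd integer.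
(1) If `T_d^n x = x`, `n ≥ 1`, and the parity words of length `m` of `x` and of an element `T_d^j x ≠ x` of its
cycle are equal, with `k` ones, then `m + (log_2 3 - 1) k` is at most
`(1 - log 2 / log 3) n + log_2 |d| + 13 log_2 n + C` with an absolute constant `C`, and also at most
`(1 - log 2 / log 3 + 1 / 40) n + log_2 |d| + 17`. (Here `1 - log 2 / log 3 = 0.3690...`.)
(2) Let the parity word of `x` over its least period `n` be a balanced product of two nonempty words `u` (`q`
times) and `v` (`p` times), `p, q ≥ 1` coprime. Then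
`39 n / 40 ≤ |u| + |v| + (log_2 3 - 1) (|u|_1 + |v|_1) + log_2 |d| + 18`, where `|u|_1` is the number of ones.
If `p, q ≥ 2`, then `n ≤ 7 (log_2 |d|) / 2 + 63`, and the elements of the cycle have absolute value at most
`2 ^ 42 |d| ^ (12 / 5)`. -/
theorem result :
    (∃ C : ℝ, ∀ d : ℤ, d % 2 = 1 → ∀ (x : ℤ) (n j m : ℕ), 1 ≤ n → (T d)^[n] x = x → (T d)^[j] x ≠ x →
      word d x m = word d ((T d)^[j] x) m →
      (m : ℝ) + (Real.logb 2 3 - 1) * (word d x m).count true ≤
        (1 - Real.log 2 / Real.log 3) * n + Real.logb 2 |(d : ℝ)| + 13 * Real.logb 2 n + C ∧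
      (m : ℝ) + (Real.logb 2 3 - 1) * (word d x m).count true ≤
        (1 - Real.log 2 / Real.log 3 + 1 / 40) * n + Real.logb 2 |(d : ℝ)| + 17) ∧
    (∀ d : ℤ, d % 2 = 1 → ∀ (x : ℤ) (p q s : ℕ) (u v : List Bool), 1 ≤ p → 1 ≤ q → p.Coprime q →
      u ≠ [] → v ≠ [] → word d x (Function.minimalPeriod (T d) x) = balanced p q s u v →
      39 / 40 * (Function.minimalPeriod (T d) x : ℝ) ≤ (u.length : ℝ) + v.length +
        (Real.logb 2 3 - 1) * (u.count true + v.count true) + Real.logb 2 |(d : ℝ)| + 18 ∧
      (2 ≤ p → 2 ≤ q → (Function.minimalPeriod (T d) x : ℝ) ≤ 7 / 2 * Real.logb 2 |(d : ℝ)| + 63 ∧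
        ∀ j : ℕ, |(((T d)^[j] x : ℤ) : ℝ)| ≤ 2 ^ 42 * |(d : ℝ)| ^ (12 / 5 : ℝ))) := by
  have hr := ratio_ge
  have hbl := logb_le
  have hbg := logb_ge
  constructor
  · obtain ⟨C, hC⟩ := log_lower_asym
    refine ⟨C, fun d hd x n j m hn hx hxy hw => ?_⟩
    have h1 := rep_b hd hn hx hxy hw
    have hb := (log2_nonneg hd).2
    set K := (Pool.Agent.H944.BX.word 3 d x n).count true
    set k := (Pool.Agent.H944.BX.word 3 d x m).count true with hk
    have hKn : K ≤ n := by
      have := List.count_le_length (a := true) (l := Pool.Agent.H944.BX.word 3 d x n)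
      rwa [Pool.Agent.H944.BX.word_length] at this
    obtain ⟨g1, g2⟩ := hC n K hn hKn _ _ hb h1
    obtain ⟨f1, f2⟩ := log_lower n K hn hb h1
    have e1 := combine (n := n) (K := K) (m := m) (k := k)
      (A := Real.logb 2 |(d : ℝ)| + 13 * Real.logb 2 n + C) (by linarith) (by linarith)
    have e2 := combine (n := n) (K := K) (m := m) (k := k)
      (A := Real.logb 2 |(d : ℝ)| + n / 40 + 17) (by linarith) (by linarith)
    have hk' : (word d x m).count true = k := rfl
    rw [hk']
    constructor <;> linarith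
  · intro d hd x p q s u v hp hq hc hu hv hw
    obtain ⟨h1, h2, h3⟩ := balanced_length (s := s) hd hp hq hc hu hv hw
    have hmp : Function.minimalPeriod (T d) x = Function.minimalPeriod (Pool.Agent.H944.BX.T 3 d) x := rfl
    rw [hmp]
    obtain ⟨hb0, hb1⟩ := log2_nonneg hd
    obtain ⟨n, hn⟩ : ∃ n, Function.minimalPeriod (Pool.Agent.H944.BX.T 3 d) x = n := ⟨_, rfl⟩
    rw [hn] at h1 h2 h3 ⊢
    have hu1 : 1 ≤ u.length := List.length_pos_iff.2 hu
    have hv1 : 1 ≤ v.length := List.length_pos_iff.2 hv
    have hn1 : 1 ≤ n := by rw [h2]; nlinarith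
    obtain ⟨f1, f2⟩ := log_lower n _ hn1 (by positivity) h1
    rw [Real.logb_mul (by norm_num) hb1.ne', Real.logb_self_eq_one (by norm_num)] at f1 f2
    refine ⟨by linarith, fun hp2 hq2 => ?_⟩
    set K := (Pool.Agent.H944.BX.word 3 d x n).count true
    have h4 : 2 * ((u.length : ℝ) + v.length) ≤ n := by
      have : 2 * (u.length + v.length) ≤ n := by
        rw [h2]
        nlinarith [Nat.mul_le_mul_right u.length hq2, Nat.mul_le_mul_right v.length hp2]
      exact_mod_cast this
    have h5 : 2 * ((u.count true : ℝ) + v.count true) ≤ K := by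
      have : 2 * (u.count true + v.count true) ≤ K := by
        rw [h3]
        nlinarith [Nat.mul_le_mul_right (u.count true) hq2, Nat.mul_le_mul_right (v.count true) hp2]
      exact_mod_cast this
    set B := Real.logb 2 |(d : ℝ)|
    have hn0 : (0 : ℝ) ≤ n := Nat.cast_nonneg _
    have hK0 : (0 : ℝ) ≤ K := Nat.cast_nonneg _
    have h6 : (Real.logb 2 3 - 1) * ((u.count true : ℝ) + v.count true) ≤ (Real.logb 2 3 - 1) * (K / 2) :=
      mul_le_mul_of_nonneg_left (by linarith) (by linarith)
    have hlen : (n : ℝ) ≤ 7 / 2 * B + 63 := by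
      rcases le_total ((K : ℝ) * Real.logb 2 3) n with h | h
      · have h7 : (K : ℝ) ≤ n / 1.58 := by
          rw [le_div_iff₀ (by norm_num)]
          nlinarith
        have h8 : (Real.logb 2 3 - 1) * (K / 2) = (K * Real.logb 2 3 - K) / 2 := by ring
        have h9 : (K * Real.logb 2 3 - K) / 2 ≤ 0.1846 * n := by
          -- `K log_2 3 - K ≤ (1 - 1 / log_2 3) n`
          have h10 : (Real.logb 2 3 - 1) * (K * Real.logb 2 3) ≤ (Real.logb 2 3 - 1) * n :=
            mul_le_mul_of_nonneg_left h (by linarith)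
          have h11 : K * Real.logb 2 3 - K ≤ 0.36915 * n := by
            by_contra hcon
            push Not at hcon
            have hl3 : (1.5849 : ℝ) ≤ Real.logb 2 3 := by
              rw [Real.le_logb_iff_rpow_le (by norm_num) (by norm_num)]
              have h1 : (2 : ℝ) ^ 84 ≤ (3 : ℝ) ^ 53 := by norm_num
              have h2 : ((2 : ℝ) ^ (84 / 53 : ℝ)) ^ 53 = 2 ^ 84 := by
                rw [← Real.rpow_natCast, ← Real.rpow_mul (by norm_num)]
                norm_num
              rw [← h2] at h1
              have h3 := le_of_pow_le_pow_left₀ (by norm_num) (by positivity) h1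
              refine le_trans ?_ h3
              exact Real.rpow_le_rpow_of_exponent_le (by norm_num) (by norm_num)
            have hl3' : Real.logb 2 3 ≤ 1.58511 := by
              rw [Real.logb_le_iff_le_rpow (by norm_num) (by norm_num)]
              have h1 : (3 : ℝ) ^ 94 ≤ (2 : ℝ) ^ 149 := by norm_num
              have h2 : ((2 : ℝ) ^ (149 / 94 : ℝ)) ^ 94 = 2 ^ 149 := by
                rw [← Real.rpow_natCast, ← Real.rpow_mul (by norm_num)]
                norm_num
              rw [← h2] at h1
              have h3 := le_of_pow_le_pow_left₀ (by norm_num) (by positivity) h1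
              refine h3.trans ?_
              exact Real.rpow_le_rpow_of_exponent_le (by norm_num) (by norm_num)
            nlinarith
          linarith
        linarith
      · have h7 : (n : ℝ) ≤ K * 1.5854 := by
          have : (65 : ℝ) / 41 ≤ 1.5854 := by norm_num
          nlinarith
        nlinarith
    refine ⟨hlen, fun j => ?_⟩
    have hx : (T d)^[n] x = x := by rw [← hn]; exact Function.iterate_minimalPeriod
    have hxj : (T d)^[n] ((T d)^[j] x) = (T d)^[j] x := by
      rw [← Function.iterate_add_apply, add_comm, Function.iterate_add_apply, hx]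
    refine (size_le hd hn1 hxj).trans ?_
    have h10 : (1 - Real.log 2 / Real.log 3 + 1 / 40) * (n : ℝ) + 17 ≤ 42 + 7 / 5 * B := by
      have : (1 - Real.log 2 / Real.log 3 + 1 / 40) * (n : ℝ) ≤ 0.3941 * n :=
        mul_le_mul_of_nonneg_right (by linarith) hn0
      linarith
    have h11 : (2 : ℝ) ^ (42 + 7 / 5 * B) = 2 ^ 42 * |(d : ℝ)| ^ (7 / 5 : ℝ) := by
      rw [Real.rpow_add (by norm_num), mul_comm (7 / 5 : ℝ) B, Real.rpow_mul (by norm_num),
        Real.rpow_logb (by norm_num) (by norm_num) hb1]
      norm_num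
    calc |(d : ℝ)| * 2 ^ ((1 - Real.log 2 / Real.log 3 + 1 / 40) * (n : ℝ) + 17)
        ≤ |(d : ℝ)| * (2 ^ 42 * |(d : ℝ)| ^ (7 / 5 : ℝ)) := by
          rw [← h11]
          exact mul_le_mul_of_nonneg_left (Real.rpow_le_rpow_of_exponent_le (by norm_num) h10) hb1.le
      _ = 2 ^ 42 * |(d : ℝ)| ^ (12 / 5 : ℝ) := by
          rw [show (12 / 5 : ℝ) = 1 + 7 / 5 by norm_num, Real.rpow_add hb1, Real.rpow_one]
          ring

end Pool.Agent.Results.MP_d0d59f_nt.RepeatedFactors
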