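import Mathlib
import Pool.Agent.V5helper76.SPG.Cyc

/-!
# The parts of the terms of orbits of `3x + d` which are composed of given primes, uniformly in `d`

Let `S` be a finite set of primes and `f` a nonzero polynomial with integer coefficients. The values of the binary
form of `f` at the pairs `(y, d)`, `y` in an orbit of `T_d`, have negligible `S`-parts, both on
logarithmic average and for almost all terms, with constants which do not depend on `d`. All but finitely
many pairs `(d, primitive cycle of T_d)` have this property.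

Method: if the parities of the first `m` terms are given then the numbers `2 ^ j T_d^j x`, `j < m`, are linear
forms in `(x, d)`. The product of the corresponding transforms of an irreducible form `g` is squarefree, because
an affine map `y ↦ (3 ^ o y + c) / 2 ^ j` maps no finite set to itself except its fixed point.
So Ridout's theorem for binary forms bounds the `S`-part of the product of `m` successive values by
`C max (|x|, |d|) ^ 3`, whatever `m` is.
-/

set_option autoImplicit false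

namespace Pool.Agent.Results.MP_d0d59f_nt.SParts

open Polynomial Finset

/-- The map `T_d` on the integers. -/
def T (d x : ℤ) : ℤ := if x % 2 = 0 then x / 2 else (3 * x + d) / 2

/-- `Z` is a cycle of `T_d`. -/
def IsCycle (d : ℤ) (Z : Finset ℤ) : Prop :=
  ∃ (x : ℤ) (p : ℕ), 1 ≤ p ∧ (T d)^[p] x = x ∧ Z = (Finset.range p).image fun i => (T d)^[i] x

/-- The `S`-part of the integer `y`: the largest divisor of `y` composed of primes in `S` (and `1` for
`y = 0`). -/
def sPart (S : Finset ℕ) (y : ℤ) : ℕ := ∏ p ∈ S, p ^ y.natAbs.factorization p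

/-- The value at `(y, d)` of the binary form of `f`, that is `d ^ n f (y / d)`, `n` the degree of `f`. -/
noncomputable def form (f : ℤ[X]) (y d : ℤ) : ℤ :=
  ∑ i ∈ range (f.natDegree + 1), f.coeff i * y ^ i * d ^ (f.natDegree - i)

/-- The height of `(y, d)`. -/
noncomputable def H (y d : ℤ) : ℝ := max |(y : ℝ)| |(d : ℝ)|

/-- The number of odd terms among `x, T_d x, …, T_d^(j-1) x`. -/
def odds (d x : ℤ) (j : ℕ) : ℕ := ((Finset.range j).filter fun i => (T d)^[i] x % 2 ≠ 0).card

/-- `x` is fresh for `f` (and `d`): for no rational root `r` of `f` is `r d` the fixed point of the affine map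
`y ↦ (3 ^ o y + c) / 2 ^ j` which maps `x` to `T_d^j x`, for any `j ≥ 1` (`o` is the number of odd terms
among `x, …, T_d^(j-1) x`). -/
def Fresh (d : ℤ) (f : ℤ[X]) (x : ℤ) : Prop :=
  ∀ j : ℕ, 1 ≤ j → ∀ r : ℚ, aeval r f = 0 →
    (2 : ℚ) ^ j * ((T d)^[j] x - r * d) ≠ 3 ^ odds d x j * (x - r * d)

lemma T_eq (d : ℤ) : T d = Pool.Agent.V5helper5.AB.T 3 d := rfl

lemma T_eq' (d : ℤ) : Pool.Agent.V5helper5.AB.T 3 (1 * d) = T d := by rw [one_mul]; rfl

lemma odds_eq (d x : ℤ) (j : ℕ) : odds d x j = Pool.Agent.V5helper5.AB.od 3 d j x := by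
  rw [Pool.Agent.V5helper5.AB.od_filter]
  rfl

lemma fresh_iff (d : ℤ) (f : ℤ[X]) (x : ℤ) :
    Fresh d f x ↔ Pool.Agent.V5helper76.SPG.Fre 3 1 d f x := by
  unfold Fresh Pool.Agent.V5helper76.SPG.Fre
  rw [T_eq]
  simp only [odds_eq, one_mul, Int.cast_ofNat]

lemma fm_eq (f : ℤ[X]) (y d : ℤ) : Pool.Agent.V5helper76.SPG.fm f y d = form f y d := rfl

lemma sPart_eq (S : Finset ℕ) (y : ℤ) :
    Real.log (sPart S y) = Pool.Agent.V5helper76.SP.Lam S y := rfl

lemma sPart_pos {S : Finset ℕ} (hS : ∀ p ∈ S, p.Prime) (y : ℤ) : 0 < sPart S y :=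
  Finset.prod_pos fun p hp => pow_pos (hS p hp).pos _

lemma ht_eq (y d : ℤ) : Pool.Agent.V5helper76.SPG.ht y d = Real.log (H y d) := rfl

lemma H_pos {d : ℤ} (hd : d % 2 = 1) (y : ℤ) : 0 < H y d := by
  have h0 : d ≠ 0 := by rintro rfl; simp at hd
  have := Pool.Agent.V5helper76.SPG.max_ge (x := y) h0
  unfold H
  linarith

lemma adm {d x : ℤ} (hd : d % 2 = 1) (h3 : ¬ (3 : ℤ) ∣ d) (hx : IsCoprime x d) :
    Pool.Agent.V5helper76.SPG.Adm 3 1 d x :=
  ⟨by rw [one_mul]; exact hd, (Int.prime_three.coprime_iff_not_dvd).2 h3, hx⟩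

open Classical in
lemma phi_sum (d : ℤ) (S : Finset ℕ) (f : ℤ[X]) {ι : Type*} (A : Finset ι) (F : ι → ℤ) :
    ∑ i ∈ A, Pool.Agent.V5helper76.SPG.phi S 3 1 d f (F i) =
      ∑ i ∈ A with Fresh d f (F i), Real.log (sPart S (form f (F i) d)) := by
  rw [Finset.sum_filter]
  refine Finset.sum_congr rfl fun i _ => ?_
  unfold Pool.Agent.V5helper76.SPG.phi
  rw [fm_eq]
  by_cases h : Fresh d f (F i)
  · rw [if_pos h, if_pos ((fresh_iff _ _ _).1 h), sPart_eq]
  · rw [if_neg h, if_neg (fun h' => h ((fresh_iff _ _ _).2 h'))]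

open Classical in
lemma ind_sum {d : ℤ} (hd : d % 2 = 1) {S : Finset ℕ} (hS : ∀ p ∈ S, p.Prime) (f : ℤ[X]) (ε : ℝ)
    {ι : Type*} (A : Finset ι) (F : ι → ℤ) :
    ∑ i ∈ A, Pool.Agent.V5helper76.SPG.ind S 3 1 d f ε (F i) =
      ((A.filter fun i => Fresh d f (F i) ∧ H (F i) d ^ ε ≤ sPart S (form f (F i) d)).card : ℝ) := by
  rw [Finset.card_filter]
  push_cast
  refine Finset.sum_congr rfl fun i hi => ?_
  unfold Pool.Agent.V5helper76.SPG.ind
  have hs : (0 : ℝ) < sPart S (form f (F i) d) := by exact_mod_cast sPart_pos hS _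
  have hH := H_pos hd (F i)
  have h1 : Pool.Agent.V5helper76.SPG.Bad S 3 1 d f ε (F i) ↔
      (Fresh d f (F i) ∧ H (F i) d ^ ε ≤ sPart S (form f (F i) d)) := by
    unfold Pool.Agent.V5helper76.SPG.Bad
    rw [fresh_iff, fm_eq, ← sPart_eq, ht_eq, ← Real.log_rpow hH,
      Real.log_le_log_iff (Real.rpow_pos_of_pos hH _) hs]
  by_cases h : (Fresh d f (F i) ∧ H (F i) d ^ ε ≤ sPart S (form f (F i) d))
  · rw [if_pos h, if_pos (h1.2 h)]
  · rw [if_neg h, if_neg (fun h' => h (h1.1 h'))]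

open Classical in
/-- **Main theorem.** Let `S` be a finite set of primes, `f` a nonzero polynomial with integer coefficients and
`ε > 0`.

(1) There is `K` such that for all odd `d` not divisible by `3`, all `x` coprime to `d` and all `n`: the sum of the
logarithms of the `S`-parts of the numbers `form f y d`, `y` a fresh term among the first `n` terms
of the orbit of `x` under `T_d`, is at most `ε` times the sum of the logarithms of the heights `max (|y|, |d|)`
of the first `n` terms, plus `K (log max (|x|, |d|) + n)`.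

(2) There is `K` such that for all such `d`, `x`, `n` with the first `n` terms different from each other, at most
`ε n + K` of them are fresh and such that the `S`-part of `form f y d` is at least `max (|y|, |d|) ^ ε`.

(3), (4) The same for primitive cycles: for all but finitely many pairs of an odd `d` not divisible by `3` and
a cycle of `T_d` whose elements are coprime to `d`, the product of the `S`-parts of the numbers `form f y d`,
`y` a fresh element, is at most the `ε`-th power of the product of all heights, and the `S`-part is at least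
`max (|y|, |d|) ^ ε` for at most `ε p` fresh elements, `p` the length of the cycle.

(5) The freshness for a linear polynomial `X - k`: `y` is fresh if and only if there is no `j ≥ 1` with
`T_d^j (k d) = k d` and `y ≡ k d` modulo `2 ^ j`; for `k = 0` the fresh integers are the odd ones. -/
theorem result (S : Finset ℕ) (hS : ∀ p ∈ S, p.Prime) (f : ℤ[X]) (hf : f ≠ 0) (ε : ℝ) (hε : 0 < ε) :
    (∃ K : ℝ, ∀ d : ℤ, d % 2 = 1 → ¬ (3 : ℤ) ∣ d → ∀ x : ℤ, IsCoprime x d → ∀ n : ℕ,
      ∑ t ∈ range n with Fresh d f ((T d)^[t] x), Real.log (sPart S (form f ((T d)^[t] x) d)) ≤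
        ε * ∑ t ∈ range n, Real.log (H ((T d)^[t] x) d) + K * (Real.log (H x d) + n)) ∧
    (∃ K : ℝ, ∀ d : ℤ, d % 2 = 1 → ¬ (3 : ℤ) ∣ d → ∀ x : ℤ, IsCoprime x d → ∀ n : ℕ,
      Set.InjOn (fun i => (T d)^[i] x) (range n : Finset ℕ) →
      (((range n).filter fun t => Fresh d f ((T d)^[t] x) ∧
        H ((T d)^[t] x) d ^ ε ≤ sPart S (form f ((T d)^[t] x) d)).card : ℝ) ≤ ε * n + K) ∧
    {q : ℤ × Finset ℤ | q.1 % 2 = 1 ∧ ¬ (3 : ℤ) ∣ q.1 ∧ IsCycle q.1 q.2 ∧
      (∀ y ∈ q.2, IsCoprime y q.1) ∧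
      (∏ y ∈ q.2, H y q.1) ^ ε < ∏ y ∈ q.2 with Fresh q.1 f y, (sPart S (form f y q.1) : ℝ)}.Finite ∧
    {q : ℤ × Finset ℤ | q.1 % 2 = 1 ∧ ¬ (3 : ℤ) ∣ q.1 ∧ IsCycle q.1 q.2 ∧
      (∀ y ∈ q.2, IsCoprime y q.1) ∧ ε * q.2.card <
      ((q.2.filter fun y => Fresh q.1 f y ∧ H y q.1 ^ ε ≤ sPart S (form f y q.1)).card : ℝ)}.Finite ∧
    (∀ d k y : ℤ, d % 2 = 1 → (Fresh d (X - C k) y ↔
      ∀ j : ℕ, 1 ≤ j → (T d)^[j] (k * d) = k * d → ¬ (2 : ℤ) ^ j ∣ y - k * d)) := by
  have h31 : (3 : ℤ) % 2 = 1 := by norm_num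
  have h33 : (3 : ℤ) ≤ |3| := by norm_num
  refine ⟨?_, ?_, ?_, ?_, ?_⟩
  · obtain ⟨K, _, h⟩ := Pool.Agent.V5helper76.SPG.traj_sum hS h31 1 hf hε
    refine ⟨K, fun d hd h3 x hx n => ?_⟩
    have h1 := h d x n (adm hd h3 hx)
    rw [T_eq'] at h1
    rw [phi_sum d S f (range n) (fun t => (T d)^[t] x)] at h1
    exact h1
  · obtain ⟨K, _, h⟩ := Pool.Agent.V5helper76.SPG.traj_count hS h31 1 hf hε
    refine ⟨K, fun d hd h3 x hx n hinj => ?_⟩
    have h1 := h d x n (adm hd h3 hx)
    rw [T_eq'] at h1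
    have h2 := h1 hinj
    rw [ind_sum hd hS f ε (range n) (fun t => (T d)^[t] x)] at h2
    exact h2
  · apply (Pool.Agent.V5helper76.SPG.cyc_sum_unif hS h31 h33 1 hf hε).subset
    rintro ⟨d, Z⟩ ⟨hd, h3, hZ, hco, hlt⟩
    simp only at hd h3 hZ hco hlt
    refine ⟨⟨by rw [one_mul]; exact hd, (Int.prime_three.coprime_iff_not_dvd).2 h3,
      by rw [one_mul]; exact hZ, hco⟩, ?_⟩
    have h1 : ∑ y ∈ Z, Pool.Agent.V5helper76.SPG.phi S 3 1 d f y =
        Real.log (∏ y ∈ Z with Fresh d f y, (sPart S (form f y d) : ℝ)) := by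
      rw [phi_sum d S f Z (fun y => y), Real.log_prod]
      intro y _
      exact_mod_cast (sPart_pos hS _).ne'
    have h2 : ε * ∑ y ∈ Z, Pool.Agent.V5helper76.SPG.ht y d =
        Real.log ((∏ y ∈ Z, H y d) ^ ε) := by
      rw [Real.log_rpow (Finset.prod_pos fun y _ => H_pos hd y),
        Real.log_prod (fun y _ => (H_pos hd y).ne')]
      rfl
    change ε * ∑ y ∈ Z, Pool.Agent.V5helper76.SPG.ht y d < ∑ y ∈ Z, Pool.Agent.V5helper76.SPG.phi S 3 1 d f y
    rw [h1, h2]
    exact Real.log_lt_log (Real.rpow_pos_of_pos (Finset.prod_pos fun y _ => H_pos hd y) _) hlt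
  · apply (Pool.Agent.V5helper76.SPG.cyc_count_unif hS h31 h33 1 hf hε).subset
    rintro ⟨d, Z⟩ ⟨hd, h3, hZ, hco, hlt⟩
    simp only at hd h3 hZ hco hlt
    refine ⟨⟨by rw [one_mul]; exact hd, (Int.prime_three.coprime_iff_not_dvd).2 h3,
      by rw [one_mul]; exact hZ, hco⟩, ?_⟩
    change ε * Z.card < ∑ y ∈ Z, Pool.Agent.V5helper76.SPG.ind S 3 1 d f ε y
    rw [ind_sum hd hS f ε Z (fun y => y)]
    exact hlt
  · intro d k y hd
    have hroot : ∀ r : ℚ, aeval r (X - C k : ℤ[X]) = 0 ↔ r = k := by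
      intro r
      rw [map_sub, aeval_X, aeval_C, sub_eq_zero]
      simp
    constructor
    · intro h j hj hk hdvd
      refine h j hj k ((hroot k).2 rfl) ?_
      obtain ⟨h1, h2⟩ := Pool.Agent.V5helper5.AB.congr_branch h31 hd hdvd j le_rfl
      have e1 := Pool.Agent.V5helper5.AB.branch h31 hd y j
      have e2 := Pool.Agent.V5helper5.AB.branch h31 hd (k * d) j
      rw [← h1, ← h2] at e2
      rw [odds_eq]
      rw [T_eq] at hk ⊢
      rw [hk] at e2
      have e3 : (2 : ℤ) ^ j * ((Pool.Agent.V5helper5.AB.T 3 d)^[j] y - k * d) =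
          3 ^ Pool.Agent.V5helper5.AB.od 3 d j y * (y - k * d) := by linarith
      exact_mod_cast e3
    · intro h j hj r hr heq
      rw [hroot] at hr
      subst hr
      have e1 : Pool.Agent.V5helper5.AB.ec 3 d j y (k * d) (k * d) = 0 := by
        rw [← Pool.Agent.V5helper5.AB.branch_kk h31 hd]
        rw [odds_eq] at heq
        rw [T_eq] at heq
        have : (2 : ℤ) ^ j * ((Pool.Agent.V5helper5.AB.T 3 d)^[j] y - k * d) =
          3 ^ Pool.Agent.V5helper5.AB.od 3 d j y * (y - k * d) := by exact_mod_cast heq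
        linarith
      obtain ⟨e2, e3⟩ := Pool.Agent.V5helper5.AB.ec_zero h31 hd e1
      exact h j hj e2 e3

end Pool.Agent.Results.MP_d0d59f_nt.SParts
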