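import Mathlib
import Pool.Agent.V5helper5.AB.Orbit

/-!
# Squarefree parts of the terms of the orbits of the 3x+d maps

In every orbit of the 3x+d map `T d` which is not eventually periodic the odd ones among the first `n`
terms have more than `n ^ c` different squarefree parts, for every `c < 1 / 3` and all large `n` (cubefree
parts: `c < 1 / 2`), and the same holds for all but finitely many cycles, with the length `p` of the cycle in
place of `n`. These are consequences of a theorem on the terms `y = k + s a ^ m` of orbits, where `(k, s)` is in a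
given set `P` of pairs; it is uniform in `d`.

Method: a window of `w = δ log n` steps. If three terms `x, T^i x, T^j x` (`0 < i < j ≤ w`) are of this form
then `a` solves simultaneously two equations `A b ^ m - B a ^ m = e`, `A' c ^ m - B' a ^ m = e'` whose
coefficients are determined by `x` modulo `2 ^ w` and by the three pairs; `e` and `e'` are small and
independent of the size of the multipliers. For `m ≥ 3` one such equation, for `m = 2` the pair
of equations has the gap principle `a₁ a₂ ≤ E a₃` for any three solutions `a₁ < a₂ < a₃`, hence only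
`O(log log a)` solutions up to `a`. The number of the classes is a power of `n` less than one.
-/

set_option autoImplicit false

namespace Pool.Agent.Results.MP_d0d59f_nt.SquarefreeParts

open Finset

/-- The 3x+d map. -/
def T (d x : ℤ) : ℤ := if x % 2 = 0 then x / 2 else (3 * x + d) / 2

/-- `Z` is a cycle of `T d`. -/
def IsCycle (d : ℤ) (Z : Finset ℤ) : Prop :=
  ∃ (x : ℤ) (p : ℕ), 1 ≤ p ∧ (T d)^[p] x = x ∧ Z = (Finset.range p).image fun i => (T d)^[i] x

/-- `y = k + s a ^ m` for an integer `a` and a pair `(k, s)` in `P` with `s ≠ 0`, and `2 ^ i` does not divide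
`y - k` when `i ≥ 1` and `T^i k` is also the first coordinate of a pair in `P`. (The last condition holds if
`y - k` is odd, and if no forward iterate `T^i k`, `i ≥ 1`, is a first coordinate.) -/
def Special (d : ℤ) (P : Finset (ℤ × ℤ)) (m : ℕ) (y : ℤ) : Prop :=
  ∃ k s a : ℤ, (k, s) ∈ P ∧ s ≠ 0 ∧ y = k + s * a ^ m ∧
    ∀ i : ℕ, 1 ≤ i → (∃ s' : ℤ, ((T d)^[i] k, s') ∈ P) → ¬ (2 : ℤ) ^ i ∣ y - k

lemma admissible {r m₀ m : ℕ} (h : (m₀ = 2 ∧ r = 3) ∨ (m₀ = 3 ∧ r = 2)) (hm : m₀ ≤ m) :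
    (r = 2 ∨ r = 3) ∧ 5 ≤ m + r ∧ 2 ≤ m := by omega

/-- **Main theorem.** Let `r = 3` for the exponents `m ≥ m₀ = 2`, or `r = 2` for the exponents
`m ≥ m₀ = 3`.

(1) Let `r c < 1`, `d` odd, and let `x` be an integer whose orbit under `T d` is not eventually periodic, that
is, all its terms are different. For all large `n`, all `m ≥ m₀` and every set `Q` of at most `n ^ c` integers
one of the first `n` terms of the orbit is odd and not of the form `s a ^ m`, `s ∈ Q`. For `m = 2` this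
says that the odd ones among the first `n` terms have more than `n ^ c` different squarefree parts.

(2) Let `r c < 1`, `d` odd. Only finitely many cycles `Z` of `T d` are such that for some `m ≥ m₀` and some set
`Q` of at most `p ^ c` integers (`p` is the length of the cycle) all odd elements are of the form
`s a ^ m`, `s ∈ Q`.

(3) Let `c, δ ≥ 0`, `ε > 0`, `r c + ε < 1`, `c + (r - 1) δ < 1`. There is `C` such that for all odd `d`, `m ≥ m₀`,
`n ≥ 2`, `|d| ≤ n ^ δ`, every set `P` of at most `n ^ c` pairs of integers with first coordinates of size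
at most `n ^ δ`, and every `x`, `|x| ≤ exp (exp (n ^ ε))`, such that the first `n` terms of the orbit of `x` under
`T d` are different, at most `C n / log n` of these terms are special for `P` and `m`. -/
theorem result (r m₀ : ℕ) (hr : (m₀ = 2 ∧ r = 3) ∨ (m₀ = 3 ∧ r = 2)) :
    (∀ c : ℝ, r * c < 1 → ∀ d : ℤ, d % 2 = 1 → ∀ x : ℤ,
      (∀ i j : ℕ, (T d)^[i] x = (T d)^[j] x → i = j) →
      ∃ n₀ : ℕ, ∀ n : ℕ, n₀ ≤ n → ∀ m : ℕ, m₀ ≤ m → ∀ Q : Finset ℤ, (Q.card : ℝ) ≤ (n : ℝ) ^ c →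
        ∃ t : ℕ, t < n ∧ (T d)^[t] x % 2 = 1 ∧ ∀ s ∈ Q, ∀ a : ℤ, (T d)^[t] x ≠ s * a ^ m) ∧
    (∀ c : ℝ, r * c < 1 → ∀ d : ℤ, d % 2 = 1 →
      {Z : Finset ℤ | IsCycle d Z ∧ ∃ m : ℕ, m₀ ≤ m ∧ ∃ Q : Finset ℤ,
        (Q.card : ℝ) ≤ (Z.card : ℝ) ^ c ∧
        ∀ y ∈ Z, y % 2 = 1 → ∃ s ∈ Q, ∃ a : ℤ, y = s * a ^ m}.Finite) ∧
    (∀ c δ ε : ℝ, 0 ≤ c → 0 ≤ δ → 0 < ε → r * c + ε < 1 → c + (r - 1 : ℕ) * δ < 1 →
      ∃ C : ℝ, ∀ d : ℤ, d % 2 = 1 → ∀ m : ℕ, m₀ ≤ m →
        ∀ (P : Finset (ℤ × ℤ)) (x : ℤ) (n : ℕ), 2 ≤ n → |(d : ℝ)| ≤ (n : ℝ) ^ δ →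
        (P.card : ℝ) ≤ (n : ℝ) ^ c → (∀ q ∈ P, |(q.1 : ℝ)| ≤ (n : ℝ) ^ δ) →
        |(x : ℝ)| ≤ Real.exp (Real.exp ((n : ℝ) ^ ε)) →
        Set.InjOn (fun i => (T d)^[i] x) (range n : Finset ℕ) →
        ∀ F : Finset ℕ, F ⊆ range n → (∀ t ∈ F, Special d P m ((T d)^[t] x)) →
          (F.card : ℝ) ≤ C * (n / Real.log n)) := by
  have hr23 : r = 2 ∨ r = 3 := by omega
  have hα : (3 : ℤ) % 2 = 1 := by norm_num
  have hg : |(3 : ℤ)| = ((3 : ℕ) : ℤ) := by norm_num
  refine ⟨?_, ?_, ?_⟩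
  · intro c hc d hd x hinj
    obtain ⟨n₀, h⟩ := Pool.Agent.V5helper5.AB.orbit_many hα hd hg le_rfl r hr23 hc x
      (fun i j h => hinj i j h)
    exact ⟨n₀, fun n hn m hm => h n hn m (admissible hr hm).2.1 (admissible hr hm).2.2⟩
  · intro c hc d hd
    refine (Pool.Agent.V5helper5.AB.finite_all hα hd hg le_rfl r hr23 hc).subset ?_
    rintro Z ⟨hZ, m, hm, Q, hQ, h⟩
    exact ⟨hZ, m, ⟨(admissible hr hm).2.1, (admissible hr hm).2.2⟩, Q, hQ, h⟩
  · intro c δ ε hc0 hd0 hε h1 h2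
    obtain ⟨C, _, hC⟩ := Pool.Agent.V5helper5.AB.asym_all hα hg le_rfl r hr23 hc0 hd0 hε h1 h2
    exact ⟨C, fun d hd m hm => hC d hd m (admissible hr hm).2.1 (admissible hr hm).2.2⟩

end Pool.Agent.Results.MP_d0d59f_nt.SquarefreeParts
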